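import Mathlib

set_option autoImplicit false
set_option linter.unusedSectionVars false

/-!
# Lexicographically minimal points of compact pieces of orbits
-/

namespace Pool.Agent.V8H40.TX

open Set Filter Topology MeasureTheory

/-- For a function continuous in `g` and measurable in `x`, the set of all `x` for which it takes a
nonpositive value on a compact set is measurable. -/
theorem meas_exists {G X : Type} [TopologicalSpace G] [PolishSpace G] [MeasurableSpace X]
    {F : G → X → ℝ} (hF : ∀ g, Measurable (F g)) (hFc : ∀ x, Continuous fun g => F g x)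
    {U : Set G} (hU : IsCompact U) : MeasurableSet {x | ∃ u ∈ U, F u x ≤ 0} := by
  rcases U.eq_empty_or_nonempty with rfl | hne
  · simp
  have : Nonempty U := hne.to_subtype
  let d : ℕ → U := TopologicalSpace.denseSeq U
  have hd : DenseRange d := TopologicalSpace.denseRange_denseSeq _
  have hpos : ∀ m : ℕ, (0 : ℝ) < 1 / ((m : ℝ) + 1) := fun m => Nat.one_div_pos_of_nat
  have key : {x | ∃ u ∈ U, F u x ≤ 0} =
      ⋂ m : ℕ, ⋃ l : ℕ, {x | F (d l) x < 1 / ((m : ℝ) + 1)} := by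
    ext x
    simp only [mem_ofPred_eq, mem_iInter, mem_iUnion]
    constructor
    · rintro ⟨u, hu, hx⟩ m
      have hopen : IsOpen {v : U | F v x < 1 / ((m : ℝ) + 1)} :=
        isOpen_lt ((hFc x).comp continuous_subtype_val) continuous_const
      obtain ⟨l, hl⟩ := hd.exists_mem_open hopen ⟨⟨u, hu⟩, lt_of_le_of_lt hx (hpos m)⟩
      exact ⟨l, hl⟩
    · intro h
      have hne' : (⋂ m : ℕ, {u : G | u ∈ U ∧ F u x ≤ 1 / ((m : ℝ) + 1)}).Nonempty := by
        apply IsCompact.nonempty_iInter_of_sequence_nonempty_isCompact_isClosed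
        · intro m u hu
          refine ⟨hu.1, hu.2.trans ?_⟩
          exact Nat.one_div_le_one_div (Nat.le_succ m)
        · intro m
          obtain ⟨l, hl⟩ := h m
          exact ⟨d l, (d l).2, hl.le⟩
        · exact hU.inter_right (isClosed_le (hFc x) continuous_const)
        · intro m
          exact hU.isClosed.inter (isClosed_le (hFc x) continuous_const)
      obtain ⟨u, hu⟩ := hne'
      rw [mem_iInter] at hu
      refine ⟨u, (hu 0).1, ?_⟩
      refine ge_of_tendsto tendsto_one_div_add_atTop_nhds_zero_nat ?_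
      exact Eventually.of_forall fun m => (hu m).2
  rw [key]
  refine MeasurableSet.iInter fun m => MeasurableSet.iUnion fun l => ?_
  exact measurableSet_lt (hF _) measurable_const

/-- The minimum over a compact set of a continuous function. -/
theorem exists_attained {G X : Type} [TopologicalSpace G] [Group G] [MulAction G X]
    {F : G → ℝ} (hFc : Continuous F) {ψ : X → ℝ} {x : X} (hψc : Continuous fun g : G => ψ (g • x))
    {U : Set G} (hU : IsCompact U) {A : Set X} (hA : ∀ y ∈ A, ∃ u ∈ U, u • x = y)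
    (hF : ∀ u ∈ U, (u • x ∈ A ↔ F u ≤ 0)) (hne : A.Nonempty) :
    ∃ u ∈ U, u • x ∈ A ∧ IsLeast (ψ '' A) (ψ (u • x)) := by
  have hK : IsCompact {u : G | u ∈ U ∧ F u ≤ 0} :=
    hU.inter_right (isClosed_le hFc continuous_const)
  obtain ⟨y, hy⟩ := hne
  obtain ⟨u₀, hu₀, hy₀⟩ := hA y hy
  have hne' : {u : G | u ∈ U ∧ F u ≤ 0}.Nonempty := by
    refine ⟨u₀, hu₀, (hF u₀ hu₀).1 ?_⟩
    rw [hy₀]
    exact hy
  obtain ⟨u, hu, hmin⟩ := hK.exists_isMinOn hne' hψc.continuousOn
  have huA : u • x ∈ A := (hF u hu.1).2 hu.2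
  refine ⟨u, hu.1, huA, ⟨u • x, huA, rfl⟩, ?_⟩
  rintro _ ⟨z, hz, rfl⟩
  obtain ⟨v, hv, rfl⟩ := hA z hz
  exact hmin ⟨hv, (hF v hv).1 hz⟩

/-- The decreasing sequence of sets on which the first functions are minimal. -/
noncomputable def lexA {X : Type} (Ψ : ℕ → X → ℝ) (A : Set X) : ℕ → Set X
  | 0 => A
  | k + 1 => {y | y ∈ lexA Ψ A k ∧ Ψ k y ≤ sInf (Ψ k '' lexA Ψ A k)}

theorem lexA_subset {X : Type} (Ψ : ℕ → X → ℝ) (A : Set X) (k : ℕ) : lexA Ψ A k ⊆ A := by
  induction k with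
  | zero => exact fun y hy => hy
  | succ k ih => exact fun y hy => ih hy.1

/-- T6: lexicographically minimal points. -/
theorem exists_lexmin {G X : Type} [TopologicalSpace G] [Group G] [IsTopologicalGroup G]
    [PolishSpace G] [MeasurableSpace G] [BorelSpace G] [MeasurableSpace X] [StandardBorelSpace X]
    [MulAction G X] (hm : Measurable fun p : G × X => p.1 • p.2) {Ψ : ℕ → X → ℝ}
    (hΨ : ∀ k, Measurable (Ψ k)) (h01 : ∀ k x, 0 ≤ Ψ k x ∧ Ψ k x ≤ 1)
    (hΨc : ∀ k x, Continuous fun g : G => Ψ k (g • x)) {e : X → ℝ} (he : Measurable e)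
    (hec : ∀ x, Continuous fun g : G => e (g • x)) {U : Set G} (hU : IsCompact U) :
    ∃ η : ℕ → X → ℝ, (∀ k, Measurable (η k)) ∧
      (∀ x x', (∀ y, ((∃ u ∈ U, u • x = y) ∧ 0 ≤ e y) ↔ ((∃ u ∈ U, u • x' = y) ∧ 0 ≤ e y)) →
        ∀ k, η k x = η k x') ∧
      ∀ x, (∃ u ∈ U, 0 ≤ e (u • x)) → ∃ u ∈ U, 0 ≤ e (u • x) ∧ ∀ k, Ψ k (u • x) = η k x := by
  have hmg : ∀ g : G, Measurable fun x : X => g • x := fun g =>
    hm.comp (measurable_const.prodMk measurable_id)
  let A₀ : X → Set X := fun x => {y | (∃ u ∈ U, u • x = y) ∧ 0 ≤ e y}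
  let η : ℕ → X → ℝ := fun k x => sInf (Ψ k '' lexA Ψ (A₀ x) k)
  have hA : ∀ k x, ∀ y ∈ lexA Ψ (A₀ x) k, ∃ u ∈ U, u • x = y := fun k x y hy =>
    (lexA_subset Ψ (A₀ x) k hy).1
  -- the recursion
  have hmeas : ∀ k, (∃ F : G → X → ℝ, (∀ g, Measurable (F g)) ∧ (∀ x, Continuous fun g => F g x) ∧
      ∀ x, ∀ u ∈ U, (u • x ∈ lexA Ψ (A₀ x) k ↔ F u x ≤ 0)) → Measurable (η k) := by
    rintro k ⟨F, hF, hFc, hFA⟩
    refine measurable_of_Iic fun r => ?_
    have hset : η k ⁻¹' Iic r = {x | ∃ u ∈ U, max (F u x) (Ψ k (u • x) - r) ≤ 0} ∪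
        ({x | ∃ u ∈ U, F u x ≤ 0}ᶜ ∩ {x : X | 0 ≤ r}) := by
      ext x
      simp only [mem_preimage, mem_Iic, mem_union, mem_ofPred_eq, mem_inter_iff, mem_compl_iff,
        max_le_iff, sub_nonpos]
      by_cases hne : (lexA Ψ (A₀ x) k).Nonempty
      · obtain ⟨u, hu, huA, hl⟩ := exists_attained (hFc x) (hΨc k x) hU (hA k x) (hFA x) hne
        have hη : η k x = Ψ k (u • x) := hl.csInf_eq
        constructor
        · intro h
          rw [hη] at h
          exact Or.inl ⟨u, hu, (hFA x u hu).1 huA, h⟩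
        · rintro (⟨v, hv, hv1, hv2⟩ | ⟨h1, -⟩)
          · rw [hη]
            exact (hl.2 ⟨v • x, (hFA x v hv).2 hv1, rfl⟩).trans hv2
          · exact absurd ⟨u, hu, (hFA x u hu).1 huA⟩ h1
      · rw [not_nonempty_iff_eq_empty] at hne
        have hη : η k x = 0 := by
          show sInf (Ψ k '' lexA Ψ (A₀ x) k) = 0
          rw [hne, image_empty, Real.sInf_empty]
        have hno : ¬ ∃ u ∈ U, F u x ≤ 0 := by
          rintro ⟨u, hu, h⟩
          have h2 := (hFA x u hu).2 h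
          rw [hne] at h2
          exact h2
        rw [hη]
        constructor
        · intro h
          exact Or.inr ⟨hno, h⟩
        · rintro (⟨v, hv, hv1, -⟩ | ⟨-, h⟩)
          · exact absurd ⟨v, hv, hv1⟩ hno
          · exact h
    rw [hset]
    refine (meas_exists (F := fun u x => max (F u x) (Ψ k (u • x) - r)) (fun g => ?_) (fun x => ?_)
      hU).union ((meas_exists hF hFc hU).compl.inter (MeasurableSet.const _))
    · exact (hF g).max (((hΨ k).comp (hmg g)).sub_const r)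
    · exact (hFc x).max ((hΨc k x).sub continuous_const)
  have hrec : ∀ k, ∃ F : G → X → ℝ, (∀ g, Measurable (F g)) ∧ (∀ x, Continuous fun g => F g x) ∧
      ∀ x, ∀ u ∈ U, (u • x ∈ lexA Ψ (A₀ x) k ↔ F u x ≤ 0) := by
    intro k
    induction k with
    | zero =>
      refine ⟨fun g x => - e (g • x), fun g => (he.comp (hmg g)).neg, fun x => (hec x).neg,
        fun x u hu => ?_⟩
      show ((∃ u' ∈ U, u' • x = u • x) ∧ 0 ≤ e (u • x)) ↔ _
      rw [neg_nonpos]
      exact ⟨fun h => h.2, fun h => ⟨⟨u, hu, rfl⟩, h⟩⟩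
    | succ k ih =>
      have hηk := hmeas k ih
      obtain ⟨F, hF, hFc, hFA⟩ := ih
      refine ⟨fun g x => max (F g x) (Ψ k (g • x) - η k x), fun g => ?_, fun x => ?_,
        fun x u hu => ?_⟩
      · exact (hF g).max (((hΨ k).comp (hmg g)).sub hηk)
      · exact (hFc x).max ((hΨc k x).sub continuous_const)
      · show (u • x ∈ lexA Ψ (A₀ x) k ∧ Ψ k (u • x) ≤ η k x) ↔ _
        rw [max_le_iff, sub_nonpos, hFA x u hu]
  refine ⟨η, fun k => hmeas k (hrec k), ?_, ?_⟩
  · intro x x' h k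
    have hAA : A₀ x = A₀ x' := Set.ext h
    show sInf (Ψ k '' lexA Ψ (A₀ x) k) = sInf (Ψ k '' lexA Ψ (A₀ x') k)
    rw [hAA]
  · rintro x ⟨u₀, hu₀, he₀⟩
    choose F hF hFc hFA using hrec
    have hne : ∀ k, (lexA Ψ (A₀ x) k).Nonempty := by
      intro k
      induction k with
      | zero => exact ⟨u₀ • x, ⟨u₀, hu₀, rfl⟩, he₀⟩
      | succ k ih =>
        obtain ⟨u, hu, huA, hl⟩ := exists_attained (hFc k x) (hΨc k x) hU (hA k x) (hFA k x) ih
        exact ⟨u • x, huA, hl.csInf_eq.ge⟩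
    have hinter : (⋂ k : ℕ, {u : G | u ∈ U ∧ u • x ∈ lexA Ψ (A₀ x) k}).Nonempty := by
      have hcl : ∀ k, {u : G | u ∈ U ∧ u • x ∈ lexA Ψ (A₀ x) k} = U ∩ {u | F k u x ≤ 0} := by
        intro k
        ext u
        constructor
        · rintro ⟨hu, h⟩
          exact ⟨hu, (hFA k x u hu).1 h⟩
        · rintro ⟨hu, h⟩
          exact ⟨hu, (hFA k x u hu).2 h⟩
      apply IsCompact.nonempty_iInter_of_sequence_nonempty_isCompact_isClosed
      · intro k u hu
        exact ⟨hu.1, hu.2.1⟩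
      · intro k
        obtain ⟨y, hy⟩ := hne k
        obtain ⟨u, hu, rfl⟩ := hA k x y hy
        exact ⟨u, hu, hy⟩
      · rw [hcl]
        exact hU.inter_right (isClosed_le (hFc 0 x) continuous_const)
      · intro k
        rw [hcl]
        exact hU.isClosed.inter (isClosed_le (hFc k x) continuous_const)
    obtain ⟨u, hu⟩ := hinter
    rw [mem_iInter] at hu
    refine ⟨u, (hu 0).1, (hu 0).2.2, fun k => le_antisymm (hu (k + 1)).2.2 ?_⟩
    refine csInf_le ⟨0, ?_⟩ ⟨u • x, (hu k).2, rfl⟩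
    rintro _ ⟨y, -, rfl⟩
    exact (h01 k y).1

end Pool.Agent.V8H40.TX
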